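import Pool.Agent.Run7.h783.RecSeq.Main

set_option autoImplicit false

/-!
# All rational numbers in one sequence whose windows are limit patterns of record prime gaps

Let `f(x) = log x (log₂ x)² log₄ x / (log₃ x)²`, the size of the largest gaps that are known to occur among
the primes up to `x`. The rational numbers can be arranged in ONE sequence `x_0, x_1, …` without repetitions
such that for every `k`, for all but finitely many `i`, the pattern `x_i, x_(i+1), …, x_(i+k)` is a limit
pattern of consecutive primes at the record scale: if `y_0 < … < y_k` are these numbers in increasing order
then `(y_1 - y_0, …, y_k - y_(k-1))` is a limit point of the vectors of `k` consecutive prime gaps divided by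
`f`, for primes in a prescribed reduced residue class to a squarefree modulus. In particular all the
numbers `|x_(i+1) - x_i|` from some place on are limit points of `(p_(n+1) - p_n) / f(p_n)`.

The same holds for every countable divisible group `G ≠ 0` of real numbers in place of the group of the
rationals, for instance for the field of all real algebraic numbers, or for the vector space over `ℚ`
generated by any countable set of real numbers.

Proof. By the theorem on limit point subsequences (starting files, `Pool.Agent.H672R3.InfRec`) there is a
sequence `B` in `G` decreasing to `0` all of whose late finite subsets are limit patterns. By the coloured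
Maynard-Tao theorem inside the record windows (starting files, `Pool.Agent.H362R2.RQ.stRQ`), used here with
the classes of the same translate of `B` adjacent to each other, for given `k` two of any `L` small
translates of `B` are connected by a walk (a finite sequence all of whose windows of length `k` are limit
patterns) which avoids any given finite set; `L` does not depend on `k`. The `z` for which `B` and `B + z` are
connected form a subgroup of `G`, and it is all of `G` because `G` is divisible. Then one sequence runs
through all elements of `G`, along loops from `B` to `B` through the first element not yet visited.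
-/

open Filter

namespace Pool.Agent.Results.MP_3bc45c_nt.OneSequenceRecordScale

/-- The record scale `f(x) = log x (log₂ x)² log₄ x / (log₃ x)²` (iterated natural logarithms). -/
noncomputable def f (x : ℝ) : ℝ :=
  Real.log x * (Real.log (Real.log x)) ^ 2 * Real.log (Real.log (Real.log (Real.log x))) /
    (Real.log (Real.log (Real.log x))) ^ 2

/-- The set of the limit points `v ∈ ℝ^m` of the vectors of `m` consecutive prime gaps divided by `f`, along the
blocks of `m + 1` consecutive primes `p_n, …, p_(n+m)`, all congruent to `a` modulo `q`: for every `ε > 0`
there are infinitely many such `n` with `|(p_(n+i+1) - p_(n+i)) / f(p_n) - v i| < ε` for all `i < m`. -/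
def LimitPoints (m q a : ℕ) : Set (Fin m → ℝ) :=
  {v | ∀ ε : ℝ, 0 < ε → ∃ᶠ n : ℕ in atTop,
    (∀ i : Fin (m + 1), Nat.nth Nat.Prime (n + i) ≡ a [MOD q]) ∧
    ∀ i : Fin m, |((Nat.nth Nat.Prime (n + i + 1) : ℝ) - Nat.nth Nat.Prime (n + i)) /
      f (Nat.nth Nat.Prime n) - v i| < ε}

/-- **All elements of a countable divisible group of real numbers in one sequence with windows of limit
patterns at the record scale.** -/
theorem result (q a : ℕ) (hq : Squarefree q) (ha : a.Coprime q) (G : AddSubgroup ℝ)
    (hcount : (G : Set ℝ).Countable) (hdiv : ∀ x ∈ G, ∀ n : ℕ, 0 < n → x / n ∈ G)
    (hne : ∃ x ∈ G, x ≠ 0) :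
    ∃ x : ℕ → ℝ, Function.Injective x ∧ Set.range x = (G : Set ℝ) ∧
      ∀ k : ℕ, ∃ i₀ : ℕ, ∀ i ≥ i₀, ∃ y : Fin (k + 1) → ℝ, StrictMono y ∧
        Set.range y = x '' Set.Icc i (i + k) ∧
        (fun r : Fin k => y r.succ - y r.castSucc) ∈ LimitPoints k q a :=
  Run7.h783.RecSeq.final q a hq ha G hcount hdiv hne

end Pool.Agent.Results.MP_3bc45c_nt.OneSequenceRecordScale
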