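import Pool.Agent.Run7.h783.GS.IterM

set_option autoImplicit false

/-!
# The iterates of `T : x ↦ a + d x`: all multiples of `N`, `2 N` or `3 N` in one sequence with prime windows

Let `(a, d)` be a pair of the question, different from `(0, 1)`, `T` the map `x ↦ a + d x`, and `N ≥ 1` (a multiple
of `3` if `3 ∣ d - 1` and `3 ∤ a`). For one `m ∈ {1, 2, 3}` ALL integers divisible by `m N` can be arranged in ONE
sequence `x_0, x_1, …` without repetitions such that for every `k`, for all but finitely many `i` and every
`η > 0` the following holds: if `μ` is the least of the numbers `x_i, …, x_(i+k)` then for arbitrarily large `X`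
there are at least `X ^ (1 - η)` primes `q ≤ X` for which all the iterates `T^(x_(i+j) - μ) (q)`, `0 ≤ j ≤ k`, are
primes. In particular, with `t = |x_(i+1) - x_i|` the iterate `T^t`, which is the pair
`(a (1 + d + ⋯ + d^(t-1)), d^t)`, has the property of the question from some `i` on; so the good exponents contain
the distances of an enumeration of all multiples of `m N`. The conjecture predicts `m = 1`.

Proof. The walk and subgroup argument of `Pool.Agent.Run7.h783.GS` for the group generated by `T ^ N`: by the
coloured Maynard-Tao theorem above one quarter for linear forms (starting files,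
`Pool.Agent.TH899.UG.quarterC`) two of any four translates of an infinite set of exponents are
connected by walks with prime windows, so that the connected translates form a subgroup of index at most
three, and one sequence runs through this subgroup.
-/

open Filter

namespace Pool.Agent.Results.MP_8bf9c2_nt.OneSequenceOfIterates

/-- **All multiples of `m N`, for some `m ≤ 3`, in one sequence whose windows are times of simultaneous primes in
the orbits of `x ↦ a + d x`.** -/
theorem result (a d : ℤ) (hd : 1 ≤ d) (hc : Int.gcd a d = 1) (h2 : 2 ∣ a * d) (hne : (a, d) ≠ (0, 1))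
    (N : ℕ) (hN : 1 ≤ N) (hN3 : 3 ∣ d - 1 → ¬ 3 ∣ a → 3 ∣ N) :
    ∃ m : ℕ, 1 ≤ m ∧ m ≤ 3 ∧ ∃ x : ℕ → ℤ, Function.Injective x ∧
      Set.range x = {y | ((m * N : ℕ) : ℤ) ∣ y} ∧
      ∀ k : ℕ, ∃ i₀ : ℕ, ∀ i ≥ i₀, ∀ l ≤ k, (∀ j ≤ k, x (i + l) ≤ x (i + j)) →
        ∀ η : ℝ, 0 < η → ∃ᶠ X : ℝ in atTop, X ^ (1 - η) ≤
          ({q : ℕ | (q : ℝ) ≤ X ∧ q.Prime ∧ ∀ j ≤ k, ∃ p : ℕ, p.Prime ∧
            (p : ℤ) = (fun y : ℤ => a + d * y)^[(x (i + j) - x (i + l)).toNat] q}.ncard : ℝ) :=
  Run7.h783.GS.final_iter a d (by omega) (Int.isCoprime_iff_gcd_eq_one.2 hc) h2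
    (fun h => hne (Prod.ext h.1 h.2)) N (by omega) hN3

end Pool.Agent.Results.MP_8bf9c2_nt.OneSequenceOfIterates
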