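import Mathlib
import Pool.Agent.Run7.h783.GS.Mult

set_option autoImplicit false

/-!
# One sequence of multipliers: the forms `q m + 1`

Let `c` be an integer, for example `c = 1`. For every infinite group `G` of positive rational
numbers with numerators (and hence denominators) prime to `c` there is a subgroup `H` of index at
most three whose elements can be arranged in ONE sequence `r_0, r_1, …`, each exactly once, such
that for every `k`, all late windows `r_i, …, r_(i+k)` and every `η > 0` there are, for arbitrarily
large `X`, at least `X ^ (1 - η)` integers `q ≤ X` for which `q m_0 + c, …, q m_k + c` are all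
prime. Here `m_0 : … : m_k` are the coprime positive integers proportional to `r_i : … : r_(i+k)`.

Proof (`Pool/Agent/Run7/h783/GS`): the group acts by dilations with the centre `c`. The coloured
Maynard-Tao theorem above one quarter for linear forms (`Pool/Agent/TH899/UG/Qc`), applied inside a
Ramsey type extraction, shows that of any four elements of the group two are connected by an element
of the subgroup of the directions which are good for all finite sets; this subgroup has index at
most three, and a walk through it gives the sequence.
-/

namespace Pool.Agent.Results.MP_d018b2_nt.OneSequenceOfMultipliers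

open Filter

/-- Let `c` be an integer (`c = 1` in the problem). For every infinite subgroup `G` of the group of
the positive rational numbers whose elements have numerators prime to `c` there is a subgroup
`H ≤ G` of index at most `3` and a sequence `r` without repetitions whose values are exactly the
elements of `H`, such that for every `k` and all sufficiently large `i` the following holds. Let
`m_0, …, m_k` be the coprime positive integers proportional to `r_i, …, r_(i+k)`. For every `η > 0`
there are arbitrarily large `X` for which at least `X ^ (1 - η)` integers `q ≤ X` are such that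
`m_0 q + c, …, m_k q + c` are all prime. -/
theorem result (c : ℤ) (G : Subgroup ℚˣ) (hpos : ∀ g ∈ G, 0 < (g : ℚ))
    (hcop : ∀ g ∈ G, IsCoprime (g : ℚ).num c) (hinf : (G : Set ℚˣ).Infinite) :
    ∃ H : Subgroup ℚˣ, H ≤ G ∧ H.relIndex G ≠ 0 ∧ H.relIndex G ≤ 3 ∧
      ∃ r : ℕ → ℚˣ, Function.Injective r ∧ Set.range r = H ∧
        ∀ k : ℕ, ∃ i₀ : ℕ, ∀ i ≥ i₀, ∀ m : ℕ → ℕ, (∀ j ≤ k, 1 ≤ m j) →
          (∀ j ≤ k, (m j : ℚ) * r i = m 0 * r (i + j)) → (Finset.range (k + 1)).gcd m = 1 →
          ∀ η : ℝ, 0 < η → ∃ᶠ X : ℝ in atTop, X ^ (1 - η) ≤
            ({q : ℤ | (q : ℝ) ≤ X ∧ ∀ j ≤ k, ∃ p : ℕ, p.Prime ∧ (p : ℤ) = m j * q + c}.ncard : ℝ) :=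
  Pool.Agent.Run7.h783.GS.final_mult c G hpos hcop hinf

end Pool.Agent.Results.MP_d018b2_nt.OneSequenceOfMultipliers
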